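import Pool.Agent.Helper15.UL.GoalsE

/-! # MP_57a173_lc: packet CL3 (helper50) -/

noncomputable section

namespace UL.PkCL3

open UL
open Pool.Agent.Helper97.Ku NU MeasureTheory

theorem thm : UL.G_REP → UL.G_DCC → UL.G_INV → UL.G_MES → UL.G_CL3 := by
  intro REP DCC INV MES I _ _ hHF hHT ι B r φ α hφ
  rw [Fc.iSup_iff] at hφ
  obtain ⟨hφM, h1⟩ := hφ
  obtain ⟨ψ₁, hψ₁, i, hi⟩ := h1 id IsM.id'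
  rw [Fc.inf_iff] at hi
  obtain ⟨hB, hI⟩ := hi
  have hB' : Fc (φ ∘ ψ₁) (B i) := hB
  have hI' : Fc (φ ∘ ψ₁) (Inn α (r i))ᶜ := hI
  obtain ⟨ψ₂, hψ₂, x, hx1, hx2⟩ := REP I hHF ℕ (r i) (φ ∘ ψ₁) (hφM.comp hψ₁)
  have hD : IsLowerSet (Set.Iio α) := isLowerSet_Iio α
  have hnew : New (Set.Iio α) x := by
    intro χ hχ hc
    have h2 : Fc ((φ ∘ ψ₁) ∘ (ψ₂ ∘ χ)) (Inn α (r i)) := by
      refine Inn.of ((hφM.comp hψ₁).comp (hψ₂.comp hχ)) (x := fun z => x (χ z)) hc fun n => ?_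
      exact (hx2 n).comp hχ
    exact h2.not_both (hI'.comp (hψ₂.comp hχ))
  obtain ⟨χ, hχ, G, hG1, hG2, hG3⟩ := hHT (Set.Iio α) x hD hx1 hnew
  generalize hDdef : Set.Iio α = D at *
  obtain ⟨ψ₃, hψ₃def⟩ : ∃ ψ₃, ψ₃ = ψ₁ ∘ ψ₂ ∘ χ := ⟨_, rfl⟩
  have hψ₃ : IsM ψ₃ := by rw [hψ₃def]; exact hψ₁.comp (hψ₂.comp hχ)
  have hS : ∀ j, ∃ T : Set ((ℕ → Bool) × Pt I), MeasurableSet T ∧ DepD D T ∧
      ∀ x z, (x, lo D (φ ∘ ψ₃) z) ∈ T ↔ (x, z) ∈ {p : (ℕ → Bool) × Pt I | G p.1 p.2 j = true} :=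
    fun j => INV I D hD _ ((hφM.comp hψ₃).lo D).1 _ (hG1 j) (fun x z z' hz => by
      show G x z j = true ↔ G x z' j = true
      rw [hG2 x z z' hz])
  choose S hS1 hS2 hS3 using hS
  refine ⟨lo D ψ₃, hψ₃.lo D, S, fun j => ⟨hS1 j, hS2 j⟩, ?_⟩
  intro T hT μ Z hμ hZ ρ hρ
  obtain ⟨θ, hθ, hθ'⟩ := hG3 μ hμ Z hZ
  have hup : UD D (up D ψ₃) := hψ₃.up D
  have hUM : UD D (up D (up D ψ₃ ∘ μ)) := (hup.1.comp hμ.1).up D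
  have hh : IsM (up D (up D ψ₃ ∘ μ) ∘ θ) := hUM.1.comp hθ
  have e : (φ ∘ lo D ψ₃ ∘ μ) ∘ (up D (up D ψ₃ ∘ μ) ∘ θ) = φ ∘ ψ₃ ∘ μ ∘ θ := by
    have e1 : up D ψ₃ ∘ μ = μ ∘ up D (up D ψ₃ ∘ μ) := hup.swap hD hμ
    have e2 : ψ₃ = lo D ψ₃ ∘ up D ψ₃ := hψ₃.lo_up hD
    funext z
    have e3 : ∀ w, up D ψ₃ (μ w) = μ (up D (up D ψ₃ ∘ μ) w) := fun w => congrFun e1 w
    have e4 : ∀ w, ψ₃ w = lo D ψ₃ (up D ψ₃ w) := fun w => congrFun e2 w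
    show φ (lo D ψ₃ (μ (up D (up D ψ₃ ∘ μ) (θ z)))) = φ (ψ₃ (μ (θ z)))
    rw [← e3, ← e4]
  have hωM : IsM (φ ∘ ψ₃ ∘ μ ∘ θ) := hφM.comp (hψ₃.comp (hμ.1.comp hθ))
  refine ⟨up D (up D ψ₃ ∘ μ) ∘ θ, hh, ?_⟩
  change Fc ((φ ∘ lo D ψ₃ ∘ μ) ∘ (up D (up D ψ₃ ∘ μ) ∘ θ)) _
  rw [e]
  refine Fc.mono ?_ (le_iSup _ i)
  have hFB : Fc (φ ∘ ψ₃ ∘ μ ∘ θ) (B i) := by
    rw [hψ₃def]
    exact hB'.comp (hψ₂.comp (hχ.comp (hμ.1.comp hθ)))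
  refine Fc.inf_iff.2 ⟨hFB, Fc.iInf_iff.2 ⟨hωM, fun j => ?_⟩⟩
  -- the value `ρ j`
  have hρj : Dc (φ ∘ ψ₃ ∘ μ ∘ θ) (ρ j) {z | Z (θ z) j = true} := by
    have h2 := (hρ j).comp hh
    rw [e] at h2
    refine h2.congr fun z => ?_
    show Z (up D (up D ψ₃ ∘ μ) (θ z)) j = true ↔ Z (θ z) j = true
    rw [(hZ j).dep (z := up D (up D ψ₃ ∘ μ) (θ z)) (z' := θ z) fun ξ hξ => up_in hξ]
  -- the bits of `r i`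
  have hrn : ∀ n, Dc (φ ∘ ψ₃ ∘ μ ∘ θ) (r i n) {z | x (χ (μ (θ z))) n = true} := by
    intro n
    rw [hψ₃def]
    exact (hx2 n).comp (hχ.comp (hμ.1.comp hθ))
  obtain ⟨M1, M2, -⟩ := MES I
  have hmθ : Measurable (χ ∘ μ ∘ θ) := M2 _ (hχ.comp (hμ.1.comp hθ))
  have hmω : Measurable (φ ∘ ψ₃ ∘ μ ∘ θ) := M2 _ hωM
  have hmx : ∀ n, MeasurableSet {z : Pt I | x (χ (μ (θ z))) n = true} := fun n =>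
    hmθ (M1 Bool (fun z => x z n) (hx1 n) {true})
  have hmb : ∀ p : I × ℕ, MeasurableSet {z : Pt I | (φ ∘ ψ₃ ∘ μ ∘ θ) z p.1 p.2 = true} := by
    intro p
    have hm : Measurable fun z : Pt I => (z p.1 : ℕ → Bool) p.2 :=
      (measurable_pi_apply p.2).comp (measurable_subtype_coe.comp (measurable_pi_apply p.1))
    exact (hm.comp hmω) (MeasurableSet.singleton true)
  have hmk : ∀ k : ℕ ⊕ (I × ℕ), MeasurableSet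
      {z : Pt I | tv2 (x (χ (μ (θ z)))) ((φ ∘ ψ₃ ∘ μ ∘ θ) z) k} := by
    rintro (n | p)
    · exact hmx n
    · exact hmb p
  have hdk : ∀ k : ℕ ⊕ (I × ℕ), Dc (φ ∘ ψ₃ ∘ μ ∘ θ) (at2 (r i) k)
      {z : Pt I | tv2 (x (χ (μ (θ z)))) ((φ ∘ ψ₃ ∘ μ ∘ θ) z) k} := by
    rintro (n | p)
    · exact hrn n
    · exact Dc.gv hωM p
  obtain ⟨-, D2, D3⟩ := DCC I hHF _ hωM
  have hTj := D2 _ (at2 (r i)) _ hmk hdk (T j)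
  have hmT := PF.measurableSet_tr hmk (T j)
  have hmρ : MeasurableSet {z : Pt I | Z (θ z) j = true} :=
    (M2 _ hθ) (M1 Bool (fun z => Z z j) ((hZ j).mono (Set.subset_univ _)) {true})
  refine (D3 _ _ _ _ hmρ hmT hρj hTj).2.2.2.fc fun z => ?_
  show Z (θ z) j = true ↔ (T j).tr (fun k => tv2 (x (χ (μ (θ z)))) ((φ ∘ ψ₃ ∘ μ ∘ θ) z) k)
  rw [← hT j (x (χ (μ (θ z)))) ((φ ∘ ψ₃ ∘ μ ∘ θ) z), ← hθ' z j]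
  have h5 := hS3 j (x (χ (μ (θ z)))) (μ (θ z))
  have h6 := hS2 j (x (χ (μ (θ z)))) (lo D (φ ∘ ψ₃) (μ (θ z))) ((φ ∘ ψ₃ ∘ μ ∘ θ) z)
    fun ξ hξ => lo_in hξ
  rw [← h6, h5]
  exact Iff.rfl

end UL.PkCL3
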