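import Pool.Agent.Helper15.UL.GoalsA

/-!
# MP_57a173_lc, packet PD0: pure decision, level one
-/

noncomputable section

namespace UL.PkPD0

open UL

variable {I : Type} [LinearOrder I]

theorem pure_of_MD {D : Set I} {q q' : I → ℕ} {f : Pt I → Pt I} (h : MD D f) (h' : Pure q' f)
    (hq : ∀ ξ ∈ D, q ξ = q' ξ) : Pure q f := by
  obtain ⟨L, hL⟩ := h.1
  classical
  have h1 := hL.lo D
  rw [h.lo_eq] at h1
  refine ⟨_, h1, fun ξ z σ hσ => ?_⟩
  by_cases hξ : ξ ∈ D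
  · simp only [hξ, if_true]
    exact h'.rep hL (by rw [hσ, hq ξ hξ])
  · simp only [hξ, if_false]; exact ⟨0, by simp [zs]⟩

theorem pure_of_UD {D : Set I} {q q' : I → ℕ} {f : Pt I → Pt I} (h : UD D f) (h' : Pure q' f)
    (hq : ∀ ξ, ξ ∉ D → q ξ ≠ 0 → q ξ = q' ξ) : Pure q f := by
  obtain ⟨L, hL⟩ := h.1
  classical
  have h1 := hL.up D
  rw [h.up_eq] at h1
  refine ⟨_, h1, fun ξ z σ hσ => ?_⟩
  by_cases hξ : ξ ∈ D
  · simp only [hξ, if_true]; exact ⟨0, by simp [zs]⟩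
  · simp only [hξ, if_false]
    exact h'.rep hL (by rw [hσ, hq ξ hξ (by omega)])

/-- A locally constant function is constant on a cone. -/
theorem const_cone {D : Set I} {β : Type} {c : Pt I → β} (hc : LC D c) :
    ∃ τ : I → Str, (Sp τ).Finite ∧ ∃ b, ∀ z, c (J τ z) = b := by
  obtain ⟨A, -, -, h⟩ := LC_iff.1 hc
  obtain ⟨τ, h1, -, -, h4⟩ := h (fun _ => oneY)
  exact ⟨τ, h1, c (fun _ => oneY), fun z => h4 _ (J_mem_B τ z)⟩

theorem main (hRL : G_RL) (hGL : G_GL) [WellFoundedLT I]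
    (hF : ∀ (D : Set I) (q : I → ℕ), IsLowerSet D → Fin0 q → (∀ ξ, ξ ∉ D → q ξ = 0) → FPS D q) :
    ∀ (n : ℕ) (q : I → ℕ) (c : Pt I → Bool), Fin0 q → (∀ ξ, q ξ ≤ 1) →
      {ξ | q ξ ≠ 0}.ncard = n → LC Set.univ c → ∃ χ, Pure q χ ∧ ∃ b, ∀ z, c (χ z) = b := by
  classical
  intro n
  induction n with
  | zero =>
    intro q c hq _ hn hc
    have h0 : ∀ ξ, q ξ = 0 := by
      intro ξ
      have h1 := (Set.ncard_eq_zero (hq : {ξ | q ξ ≠ 0}.Finite)).1 hn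
      by_contra h2
      have h3 : ξ ∈ ({ξ | q ξ ≠ 0} : Set I) := h2
      rw [h1] at h3
      exact h3
    obtain ⟨τ, h1, b, h2⟩ := const_cone hc
    exact ⟨J τ, J_pure h1 (fun ξ hξ => absurd (h0 ξ) hξ), b, h2⟩
  | succ n ih =>
    intro q c hq hq1 hn hc
    -- the largest element
    have hne : ({ξ | q ξ ≠ 0} : Set I).Nonempty := by
      rw [← Set.ncard_pos (hq : {ξ | q ξ ≠ 0}.Finite), hn]
      omega
    obtain ⟨ε, hε, hmax⟩ : ∃ ε, q ε ≠ 0 ∧ ∀ ξ, q ξ ≠ 0 → ξ ≤ ε := by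
      obtain ⟨ε, h1, h2⟩ := Set.exists_max_image _ id (hq : {ξ | q ξ ≠ 0}.Finite) hne
      exact ⟨ε, h1, fun ξ hξ => h2 ξ hξ⟩
    let E : Set I := Set.Iio ε
    have hE : IsLowerSet E := isLowerSet_Iio ε
    let q' : I → ℕ := fun ξ => if ξ = ε then 0 else q ξ
    have hq' : ∀ ξ, ξ ≠ ε → q' ξ = q ξ := fun ξ h => if_neg h
    have hq'ε : q' ε = 0 := if_pos rfl
    have hset : ({ξ | q' ξ ≠ 0} : Set I) = {ξ | q ξ ≠ 0} \ {ε} := by
      ext ξ
      simp only [Set.mem_ofPred_eq, Set.mem_sdiff, Set.mem_singleton_iff]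
      by_cases h : ξ = ε
      · subst h; simp [hq'ε]
      · simp [hq' ξ h, h]
    have hfin' : Fin0 q' := by
      show ({ξ | q' ξ ≠ 0} : Set I).Finite
      rw [hset]
      exact (hq : {ξ | q ξ ≠ 0}.Finite).subset Set.sdiff_subset
    have hcard : ({ξ | q' ξ ≠ 0} : Set I).ncard = n := by
      rw [hset, Set.ncard_sdiff_singleton_of_mem (by exact hε), hn]
      rfl
    have hle' : ∀ ξ, q' ξ ≤ 1 := by
      intro ξ
      by_cases h : ξ = ε
      · subst h; rw [hq'ε]; omega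
      · rw [hq' ξ h]; exact hq1 ξ
    have hout : ∀ ξ, ξ ∉ E → q' ξ = 0 := by
      intro ξ hξ
      by_cases h : ξ = ε
      · subst h; exact hq'ε
      · rw [hq' ξ h]
        by_contra hc'
        exact hξ (lt_of_le_of_ne (hmax ξ hc') h)
    -- the two properties
    let P : Bool → (Pt I → Pt I) → Prop := fun b f => ∀ z, c (f z) = b
    have hP : Her P := by
      refine ⟨fun b f g _ h _ z => h (g z), fun b f _ h z => ?_⟩
      obtain ⟨A, -, -, h⟩ := h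
      obtain ⟨τ, -, -, h3, h4⟩ := h z
      obtain ⟨w, rfl⟩ := mem_B_iff.1 h3
      exact h4 w
    have hdens : ∀ f, IsM f → ∃ g b, IsM g ∧ P b (f ∘ g) := by
      intro f hf
      obtain ⟨τ, h1, b, h2⟩ := const_cone (hc.comp isLowerSet_univ hf)
      exact ⟨J τ, b, J_isM h1, h2⟩
    have hRL' := hRL I ε (hF E (fun _ => 0) hE (by simp [Fin0]) (fun _ _ => rfl)) P hP hdens
    let Q : (Pt I → Pt I) → Prop := fun ψ => ∃ b φ, UD E φ ∧ Pure (q1 ε 1) φ ∧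
      ∀ z, c (ψ (φ z)) = b
    have hDns : Dns E Q := by
      intro f hf
      obtain ⟨χ, h1, b, φ, h2, h3, h4⟩ := hRL' f hf
      exact ⟨χ, h1, b, φ, h2, h3, h4⟩
    have hq1E : ∀ ξ ∈ E, q1 ε 1 ξ = 0 := fun ξ hξ => q1_ne 1 (ne_of_lt hξ)
    have hOpn : Opn E Q := by
      rintro f g hf ⟨b, φ, h1, h2, h3⟩ hg
      refine ⟨b, UL.up E (φ ∘ g), (h1.1.comp hg.1).up E, Pure.swap hE hq1E h2 hg, fun z => ?_⟩
      have h4 := congrFun (h1.swap hE hg) z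
      show c (f (g (UL.up E (φ ∘ g) z))) = b
      have h5 : g (UL.up E (φ ∘ g) z) = φ (g z) := h4.symm
      rw [h5]
      exact h3 (g z)
    obtain ⟨ψ, hψ, hψ', hcov⟩ := hF E q' hE hfin' hout (fun _ => Q) (fun _ => hDns)
      (fun _ => hOpn)
    obtain ⟨τ, hτ1, hτ2⟩ := (hcov 0).enum
    choose b φ hφ1 hφ2 hφ3 using fun l => (hτ1 l).2.2
    obtain ⟨Θ, hΘ, A, hA, hAc, hΘ2⟩ := hGL I E Unit (fun _ => q1 ε 1) τ (fun l _ => φ l) hE
      (fun l => ⟨(hτ1 l).1, (hτ1 l).2.1⟩) hτ2 (fun l _ => ⟨hφ1 l, hφ2 l⟩)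
    have hc' : LC E (fun z => c (ψ (Θ () z))) := by
      refine LC_iff.2 ⟨A, hA, hAc, fun z => ?_⟩
      obtain ⟨ρ, h1, h2, h3, l, lam, -, -, -, h4⟩ := hΘ2 z
      have key : ∀ z' ∈ B ρ, c (ψ (Θ () z')) = b l := by
        intro z' hz'
        obtain ⟨w, rfl⟩ := mem_B_iff.1 hz'
        have h5 : Θ () (J ρ w) = J (τ l) (φ l (J lam w)) := congrFun (h4 ()) w
        rw [h5]
        exact hφ3 l (J lam w)
      exact ⟨ρ, h1, h2, h3, fun z' hz' => by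
        show c (ψ (Θ () z')) = c (ψ (Θ () z))
        rw [key z' hz', key z h3]⟩
    obtain ⟨χ', hχ', b', hb'⟩ := ih q' (fun z => c (ψ (Θ () z))) hfin' hle' hcard
      (hc'.mono (Set.subset_univ _))
    have heq : ∀ ξ ∈ E, q ξ = q' ξ := fun ξ hξ => (hq' ξ (ne_of_lt hξ)).symm
    have p1 : Pure q ψ := pure_of_MD hψ hψ' heq
    have p2 : Pure q (Θ ()) := pure_of_UD (hΘ ()).1 (hΘ ()).2 (by
      intro ξ hξ h0
      have h1 : ξ = ε := le_antisymm (hmax ξ h0) (not_lt.1 hξ)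
      subst h1
      rw [q1_same]
      have := hq1 ξ
      omega)
    have p3 : Pure q (UL.lo E χ') := pure_of_MD (hχ'.isM.lo E) (hχ'.lo E) heq
    refine ⟨ψ ∘ (Θ () ∘ UL.lo E χ'), p1.comp (p2.comp p3), b', fun z => ?_⟩
    have h1 := hc'.dep (z := UL.lo E χ' z) (z' := χ' z) (fun ξ hξ => lo_in hξ)
    show c (ψ (Θ () (UL.lo E χ' z))) = b'
    rw [← hb' z]
    exact h1

theorem thm : UL.G_RL → UL.G_GL → UL.G_PD0 := by
  intro hRL hGL I _ _ hF q c hq hq1 hc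
  exact main hRL hGL hF _ q c hq hq1 rfl hc

end UL.PkPD0
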